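import Pool.Agent.MVZ.StmtsP

/-!
# MVS: row BND (Rauch bounds)
-/

noncomputable section

open scoped ContDiff Topology RealInnerProductSpace
open Set

namespace Pool.Agent.MVZ.H94

open Pool.Agent.RF Pool.Agent.MVS

/-- Cauchy-Schwarz for a positive symmetric form -/
theorem bnd_cs {V : Type*} [NormedAddCommGroup V] [NormedSpace ℝ V] (B : Bil V)
    (hs : ∀ v w, B v w = B w v) (hp : ∀ v, v ≠ 0 → 0 < B v v) (v w : V) :
    B v w ^ 2 ≤ B w w * B v v := by
  by_cases hw : w = 0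
  · subst hw
    simp
  · have hww := hp w hw
    have hnn : 0 ≤ B (B w w • v - B v w • w) (B w w • v - B v w • w) := by
      by_cases hu : B w w • v - B v w • w = 0
      · rw [hu]; simp
      · exact (hp _ hu).le
    simp only [map_sub, map_smul, ContinuousLinearMap.sub_apply, ContinuousLinearMap.smul_apply,
      smul_eq_mul] at hnn
    rw [hs w v] at hnn
    have h2 : 0 ≤ B w w * (B w w * B v v - B v w ^ 2) := by nlinarith [hnn]
    have h3 := nonneg_of_mul_nonneg_right h2 hww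
    linarith

theorem bnd_pNpP (κ : Finset (Fin 5)) (x : E5) : pN κ x + pP κ x = x := by
  have h : pN κ x + pP κ x = ∑ i, (x i) • (eb i : E5) := by
    have := Finset.sum_compl_add_sum κ (fun i => (x i) • (eb i : E5))
    rw [← this]
    simp [pN, pP, ContinuousLinearMap.sum_apply]
  rw [h]
  ext j
  simp [eb, Finset.sum_apply, PiLp.smul_apply, Pi.single_apply, Finset.sum_ite_eq]

theorem bnd_gam_mem {G : E5 → Bil E5} {κ : Finset (Fin 5)} {F : E5 → E5} (hF : NData G κ F)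
    {σ y : E5} (hσ : pP κ σ = 0) (hσ0 : σ ≠ 0) (hy : pN κ y = 0) (t : ℝ) :
    gam F σ y t ∈ Om (Fin 5) := by
  have h1 : pN κ (σ + t • y) = σ := by
    rw [map_add, map_smul, hy, smul_zero, add_zero]
    have := bnd_pNpP κ σ
    rwa [hσ, add_zero] at this
  have h2 := hF.norm (σ + t • y) (by rw [h1]; exact hσ0)
  rw [h1] at h2
  change F (σ + t • y) ≠ 0
  intro h
  rw [h, norm_zero] at h2
  exact hσ0 (norm_eq_zero.mp h2.symm)

theorem bnd : FlaStatement → FlbStatement → CtnStatement → CctStatement → BndStatement := by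
  intro hFla hFlb hCtn hCct G κ a b F hS hF σ y hσ hσ0 hy hy1 w t
  have hmem := bnd_gam_mem hF hσ hσ0 hy
  have hsym : ∀ s, ∀ v v', G (gam F σ y s) v v' = G (gam F σ y s) v' v := fun s v v' =>
    hS.cyl.metric.symm _ (hmem s) v v'
  have hpos : ∀ s, ∀ v, v ≠ 0 → 0 < G (gam F σ y s) v v := fun s v hv =>
    hS.cyl.metric.pos _ (hmem s) v hv
  have hnn : ∀ s, ∀ v, 0 ≤ G (gam F σ y s) v v := by
    intro s v
    by_cases hv : v = 0
    · rw [hv]; simp
    · exact (hpos s v hv).le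
  have hg0 : gam F σ y 0 = σ := by
    simp only [gam, zero_smul, add_zero]
    exact hF.base σ hσ hσ0
  set α : ℝ → ℝ := fun s => G (gam F σ y s) (Vf κ F σ y w s) (Vf κ F σ y w s) with hα
  set β : ℝ → ℝ := fun s => G (gam F σ y s) (DVf G κ F σ y w s) (Vf κ F σ y w s) with hβ
  set δ : ℝ → ℝ := fun s => G (gam F σ y s) (DVf G κ F σ y w s) (DVf G κ F σ y w s) with hδ
  set β' : ℝ → ℝ := fun s => G (gam F σ y s)
    (riem G (gam F σ y s) (Tv F σ y s) (Vf κ F σ y w s) (Tv F σ y s)) (Vf κ F σ y w s)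
      + G (gam F σ y s) (DVf G κ F σ y w s) (DVf G κ F σ y w s) with hβ'
  have h1 : ∀ s, HasDerivAt α (2 * β s) s := by
    intro s
    have h := (hFla G κ a b F hS hF σ y hσ hσ0 hy hy1 w w s).1
    rw [hsym s (Vf κ F σ y w s) (DVf G κ F σ y w s), ← two_mul] at h
    exact h
  have h2 : ∀ s, HasDerivAt β (β' s) s := fun s =>
    (hFla G κ a b F hS hF σ y hσ hσ0 hy hy1 w w s).2
  have h3 : ∀ s, 0 ≤ α s := fun s => hnn s _
  have h4 : ∀ s, β s ^ 2 ≤ α s * δ s := fun s => bnd_cs _ (hsym s) (hpos s) _ _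
  have h5 : ∀ s, 0 ≤ δ s := fun s => hnn s _
  have h6 : ∀ s, δ s - α s ≤ β' s := by
    intro s
    have h := (hFlb G κ a b F hS hF σ y hσ hσ0 hy hy1 w w s).2.2.2.1
    simp only [hα, hδ, hβ']
    linarith
  have hb := hFlb G κ a b F hS hF σ y hσ hσ0 hy hy1 w w 0
  have hV0 : Vf κ F σ y w 0 = pN κ w := hb.2.1
  have h7 : β 0 = 0 := by
    simp only [hβ]
    rw [hg0, hV0]
    exact hb.2.2.1
  have hα0 : α 0 = G σ (pN κ w) (pN κ w) := by
    simp only [hα]
    rw [hg0, hV0]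
  refine ⟨fun ht0 ht1 => ?_, fun hw ht0 ht1 => ?_⟩
  · have h := hCtn α β β' δ h1 h2 h3 h4 h5 h6 h7 t ht0 ht1
    rw [hα0] at h
    exact h
  · have hα00 : α 0 = 0 := by rw [hα0, hw]; simp
    have hβ'0 : β' 0 = ⟪w, w⟫ := by
      simp only [hβ']
      rw [hg0, hV0, hw, map_zero, zero_add]
      exact hb.2.2.2.2.1 hw
    have h := hCct α β β' δ h1 h2 h3 h4 h5 h6 hα00 h7 t ht0 ht1
    rw [hβ'0] at h
    exact h

end Pool.Agent.MVZ.H94
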