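import Pool.Agent.MVZ.StmtsP
import Pool.Agent.Helper5_RF.Common
import Pool.Agent.Helper5_RF.Cyl
import Pool.Agent.Helper36_RF.Chr

/-!
# MVS: common facts on the normal exponential map (helper45)
-/

noncomputable section

open scoped ContDiff Topology RealInnerProductSpace
set_option maxSynthPendingDepth 3
open Set

namespace Pool.Agent.MVZ.H45

open Pool.Agent.RF Pool.Agent.MVS

variable {G : E5 → Bil E5} {κ : Finset (Fin 5)} {a b : ℝ} {F : E5 → E5}

theorem isOpen_pN : IsOpen {z : E5 | pN κ z ≠ 0} :=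
  isOpen_compl_singleton.preimage (pN κ).continuous

theorem cdF (hN : NData G κ F) {z : E5} (hz : pN κ z ≠ 0) : ContDiffAt ℝ ∞ F z :=
  (hN.smooth z hz).contDiffAt (isOpen_pN.mem_nhds hz)

theorem memOm (hN : NData G κ F) {z : E5} (hz : pN κ z ≠ 0) : F z ∈ Om (Fin 5) := by
  have h := hN.norm z hz
  intro h0
  rw [h0, norm_zero] at h
  exact hz (norm_eq_zero.1 h.symm)

theorem hasDerivAt_F (hN : NData G κ F) {z : ℝ → E5} {u : E5} {s : ℝ} (hz : pN κ (z s) ≠ 0)
    (h : HasDerivAt z u s) : HasDerivAt (fun r => F (z r)) (fderiv ℝ F (z s) u) s := by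
  have h1 : DifferentiableAt ℝ F (z s) := (cdF hN hz).differentiableAt (by simp)
  exact h1.hasFDerivAt.comp_hasDerivAt s h

theorem hasDerivAt_DF (hN : NData G κ F) {z w : ℝ → E5} {u w' : E5} {s : ℝ}
    (hz : pN κ (z s) ≠ 0) (h : HasDerivAt z u s) (hw : HasDerivAt w w' s) :
    HasDerivAt (fun r => fderiv ℝ F (z r) (w r))
      (fderiv ℝ (fderiv ℝ F) (z s) u (w s) + fderiv ℝ F (z s) w') s := by
  have h1 : DifferentiableAt ℝ (fderiv ℝ F) (z s) :=
    (H5.fd_contDiffAt (cdF hN hz)).differentiableAt (by simp)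
  exact (h1.hasFDerivAt.comp_hasDerivAt s h).clm_apply hw

theorem symF (hN : NData G κ F) {z : E5} (hz : pN κ z ≠ 0) (u v : E5) :
    fderiv ℝ (fderiv ℝ F) z u v = fderiv ℝ (fderiv ℝ F) z v u :=
  H5.fd2_symm (cdF hN hz) u v

theorem pN_eq (hR : RotStatement) {σ : E5} (h : pP κ σ = 0) : pN κ σ = σ := by
  have := hR.1 κ σ
  rw [h, add_zero] at this
  exact this

theorem pP_eq (hR : RotStatement) {y : E5} (h : pN κ y = 0) : pP κ y = y := by
  have := hR.1 κ y
  rw [h, zero_add] at this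
  exact this

theorem pN_line (hR : RotStatement) {σ y : E5} (hσ : pP κ σ = 0) (hy : pN κ y = 0) (t : ℝ) :
    pN κ (σ + t • y) = σ := by
  rw [map_add, map_smul, hy, smul_zero, add_zero, pN_eq hR hσ]

theorem pN_line_ne (hR : RotStatement) {σ y : E5} (hσ : pP κ σ = 0) (h0 : σ ≠ 0)
    (hy : pN κ y = 0) (t : ℝ) : pN κ (σ + t • y) ≠ 0 := by
  rw [pN_line hR hσ hy]; exact h0

theorem geo' (hR : RotStatement) (hN : NData G κ F) {σ y : E5} (hσ : pP κ σ = 0) (h0 : σ ≠ 0)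
    (hy : pN κ y = 0) (t : ℝ) :
    fderiv ℝ (fderiv ℝ F) (σ + t • y) y y
      + chris G (F (σ + t • y)) (fderiv ℝ F (σ + t • y) y) (fderiv ℝ F (σ + t • y) y) = 0 := by
  rw [← H5.fd2_eq (cdF hN (pN_line_ne hR hσ h0 hy t)), hN.geo σ hσ h0 y hy t]
  exact neg_add_cancel _

theorem hasDerivAt_line (σ y : E5) (t : ℝ) : HasDerivAt (fun s : ℝ => σ + s • y) y t := by
  have h := ((hasDerivAt_id t).smul_const y).const_add σ
  simpa using h

/-- constant speed of the normal geodesics -/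
theorem speed (hR : RotStatement) (hM : McoStatement) (hS : IsMetricOn G (Om (Fin 5)))
    (hN : NData G κ F) {σ y : E5} (hσ : pP κ σ = 0) (h0 : σ ≠ 0) (hy : pN κ y = 0) (t : ℝ) :
    G (F (σ + t • y)) (fderiv ℝ F (σ + t • y) y) (fderiv ℝ F (σ + t • y) y) = ⟪y, y⟫ := by
  have hd : ∀ t : ℝ, HasDerivAt (fun s : ℝ => G (F (σ + s • y)) (fderiv ℝ F (σ + s • y) y)
      (fderiv ℝ F (σ + s • y) y)) 0 t := by
    intro t
    have hz := pN_line_ne hR hσ h0 hy t
    have h1 := hasDerivAt_F hN hz (hasDerivAt_line σ y t)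
    have h2 := hasDerivAt_DF hN hz (hasDerivAt_line σ y t) (hasDerivAt_const t y)
    have h3 := hM (Fin 5) G (Om (Fin 5)) hS _ _ _ _ _ _ t (memOm hN hz) h1 h2 h2
    rw [map_zero, add_zero, geo' hR hN hσ h0 hy t] at h3
    simpa using h3
  have h1 : ∀ s t : ℝ, G (F (σ + s • y)) (fderiv ℝ F (σ + s • y) y)
      (fderiv ℝ F (σ + s • y) y) = G (F (σ + t • y)) (fderiv ℝ F (σ + t • y) y)
      (fderiv ℝ F (σ + t • y) y) :=
    is_const_of_deriv_eq_zero (fun t => (hd t).differentiableAt) (fun t => (hd t).deriv)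
  rw [h1 t 0, zero_smul, add_zero, hN.base σ hσ h0]
  exact hN.iso σ hσ h0 y y hy hy

/-- `2 G(T, D_s T) = ∂_s |y + s w|²` at `s = 0` -/
theorem speed_var (hR : RotStatement) (hM : McoStatement) (hS : IsMetricOn G (Om (Fin 5)))
    (hN : NData G κ F) {σ y n w : E5} (hσ : pP κ σ = 0) (h0 : σ ≠ 0) (hy : pN κ y = 0)
    (hn : pP κ n = 0) (hw : pN κ w = 0) (t : ℝ) :
    G (F (σ + t • y)) (fderiv ℝ F (σ + t • y) y)
      (fderiv ℝ (fderiv ℝ F) (σ + t • y) (n + t • w) y + fderiv ℝ F (σ + t • y) w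
        + chris G (F (σ + t • y)) (fderiv ℝ F (σ + t • y) (n + t • w))
            (fderiv ℝ F (σ + t • y) y)) = ⟪y, w⟫ := by
  have hz := pN_line_ne hR hσ h0 hy t
  -- the curve `z s = σ + s n + t (y + s w)`
  have hzl : HasDerivAt (fun s : ℝ => σ + s • n + t • (y + s • w)) (n + t • w) 0 := by
    have h1 := hasDerivAt_line σ n 0
    have h2 := (hasDerivAt_line y w 0).const_smul t
    exact h1.add h2
  have hwl : HasDerivAt (fun s : ℝ => y + s • w) w 0 := hasDerivAt_line y w 0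
  have hz0 : (fun s : ℝ => σ + s • n + t • (y + s • w)) 0 = σ + t • y := by simp
  have hz' : pN κ ((fun s : ℝ => σ + s • n + t • (y + s • w)) 0) ≠ 0 := by rw [hz0]; exact hz
  have h1 := hasDerivAt_F hN hz' hzl
  have h2 := hasDerivAt_DF hN hz' hzl hwl
  have h3 := hM (Fin 5) G (Om (Fin 5)) hS _ _ _ _ _ _ 0 (memOm hN hz') h1 h2 h2
  have hev : ∀ᶠ s : ℝ in 𝓝 0, σ + s • n ≠ 0 := by
    have hc : Continuous (fun s : ℝ => σ + s • n) := by fun_prop
    have : (fun s : ℝ => σ + s • n) 0 ≠ 0 := by simpa using h0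
    exact hc.continuousAt.eventually_ne this
  have h4 : HasDerivAt (fun s : ℝ => (⟪y + s • w, y + s • w⟫ : ℝ)) (⟪y, w⟫ + ⟪w, y⟫) 0 := by
    have := hwl.inner ℝ hwl
    simpa using this
  have h5 : (fun s : ℝ => (⟪y + s • w, y + s • w⟫ : ℝ)) =ᶠ[𝓝 0] (fun s : ℝ =>
      G (F (σ + s • n + t • (y + s • w))) (fderiv ℝ F (σ + s • n + t • (y + s • w)) (y + s • w))
        (fderiv ℝ F (σ + s • n + t • (y + s • w)) (y + s • w))) := by
    filter_upwards [hev] with s hs
    have ha : pP κ (σ + s • n) = 0 := by rw [map_add, map_smul, hσ, hn, smul_zero, add_zero]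
    have hb : pN κ (y + s • w) = 0 := by rw [map_add, map_smul, hy, hw, smul_zero, add_zero]
    exact (speed hR hM hS hN ha hs hb t).symm
  have h6 := (h3.congr_of_eventuallyEq h5).unique h4
  have hx := memOm hN hz
  simp only [zero_smul, add_zero] at h6
  rw [hS.symm _ hx (_ + _ + _) _] at h6
  rw [real_inner_comm y w] at h6
  linarith

end Pool.Agent.MVZ.H45
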