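import Pool.Agent.MVZ.StmtsP
import Pool.Agent.Helper36_RF.Chr

/-!
# MVS, row DET (helper3): lower bound of the volume density
-/

noncomputable section

open scoped ContDiff Topology RealInnerProductSpace
open Set

namespace Pool.Agent.MVZ.H3

open Pool.Agent.RF Pool.Agent.MVS

section jacobi

variable {n : Type} [Fintype n] [DecidableEq n]

/-- Jacobi's formula -/
theorem hasDerivAt_det {A : ℝ → Matrix n n ℝ} {A' : Matrix n n ℝ} {t : ℝ}
    (h : ∀ i j, HasDerivAt (fun s => A s i j) (A' i j) t) :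
    HasDerivAt (fun s => (A s).det) ((A t).adjugate * A').trace t := by
  have h1 : HasDerivAt (fun s => (A s).det)
      (∑ σ : Equiv.Perm n, ((Equiv.Perm.sign σ : ℤ) : ℝ) *
        ∑ i, (∏ j ∈ Finset.univ.erase i, A t (σ j) j) • A' (σ i) i) t := by
    simp only [Matrix.det_apply']
    refine HasDerivAt.fun_sum fun σ _ => ?_
    refine HasDerivAt.const_mul _ ?_
    exact HasDerivAt.fun_finsetProd fun i _ => h (σ i) i
  have h2 : (∑ σ : Equiv.Perm n, ((Equiv.Perm.sign σ : ℤ) : ℝ) *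
        ∑ i, (∏ j ∈ Finset.univ.erase i, A t (σ j) j) • A' (σ i) i) =
      ((A t).adjugate * A').trace := by
    have h3 : ∀ i, ((A t).adjugate * A') i i = ((A t).updateCol i (fun k => A' k i)).det := by
      intro i
      rw [← Matrix.cramer_apply, Matrix.cramer_eq_adjugate_mulVec]
      rfl
    rw [Matrix.trace]
    simp only [Matrix.diag_apply, h3]
    simp only [Matrix.det_apply', Finset.mul_sum]
    rw [Finset.sum_comm]
    refine Finset.sum_congr rfl fun i _ => Finset.sum_congr rfl fun σ _ => ?_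
    rw [← Finset.prod_erase_mul _ _ (Finset.mem_univ i), Matrix.updateCol_self, smul_eq_mul]
    congr 2
    refine Finset.prod_congr rfl fun j hj => ?_
    rw [Matrix.updateCol_ne (Finset.ne_of_mem_erase hj)]
  rw [← h2]
  exact h1

theorem trace_inv {A B : Matrix n n ℝ} (hA : A.det ≠ 0) :
    (A.adjugate * B).trace = A.det * (A⁻¹ * B).trace := by
  rw [Matrix.inv_def, Matrix.smul_mul, Matrix.trace_smul, smul_eq_mul, ← mul_assoc,
    Ring.inverse_eq_inv', mul_inv_cancel₀ hA, one_mul]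

theorem continuousAt_det {X : Type} [TopologicalSpace X] {M : X → Matrix n n ℝ} {x : X}
    (h : ∀ i j, ContinuousAt (fun z => M z i j) x) : ContinuousAt (fun z => (M z).det) x := by
  simp only [Matrix.det_apply']
  refine tendsto_finsetSum _ fun σ _ => Filter.Tendsto.const_mul _ ?_
  exact tendsto_finsetProd _ fun i _ => h (σ i) i

end jacobi

section fields

/-- the linear map `w ↦ Vf w t` -/
def LV (κ : Finset (Fin 5)) (F : E5 → E5) (σ y : E5) (t : ℝ) : E5 →L[ℝ] E5 :=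
  (fderiv ℝ F (σ + t • y)).comp (pN κ + t • pP κ)

theorem LV_apply (κ : Finset (Fin 5)) (F : E5 → E5) (σ y : E5) (t : ℝ) (w : E5) :
    LV κ F σ y t w = Vf κ F σ y w t := rfl

/-- the form `B_t` -/
def BV (G : E5 → Bil E5) (κ : Finset (Fin 5)) (F : E5 → E5) (σ y : E5) (t : ℝ) : Bil E5 :=
  (G (gam F σ y t)).bilinearComp (LV κ F σ y t) (LV κ F σ y t)

theorem BV_apply (G : E5 → Bil E5) (κ : Finset (Fin 5)) (F : E5 → E5) (σ y : E5) (t : ℝ)
    (v w : E5) : BV G κ F σ y t v w = G (gam F σ y t) (Vf κ F σ y v t) (Vf κ F σ y w t) := rfl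

variable {G : E5 → Bil E5} {κ : Finset (Fin 5)} {a b : ℝ} {F : E5 → E5}
  {σ y : E5}

theorem exists_CV (fll : FllStatement) (hS : Setup G κ a b) (hN : NData G κ F)
    (h1 : pP κ σ = 0) (h2 : σ ≠ 0) (h3 : pN κ y = 0) (t : ℝ) :
    ∃ C : Bil E5, ∀ v w, C v w =
      G (gam F σ y t) (DVf G κ F σ y v t) (Vf κ F σ y w t) := by
  let M : E5 →ₗ[ℝ] E5 :=
    { toFun := fun w => DVf G κ F σ y w t
      map_add' := fun w w' => (fll G κ a b F hS hN σ y h1 h2 h3 w w' 0 t).2.2.1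
      map_smul' := fun r w => (fll G κ a b F hS hN σ y h1 h2 h3 w w r t).2.2.2 }
  exact ⟨(G (gam F σ y t)).bilinearComp (LinearMap.toContinuousLinearMap M) (LV κ F σ y t),
    fun v w => rfl⟩

theorem pN_self (rot : RotStatement) (h1 : pP κ σ = 0) : pN κ σ = σ := by
  have := rot.1 κ σ
  rwa [h1, add_zero] at this

theorem pN_ray (rot : RotStatement) (h1 : pP κ σ = 0) (h3 : pN κ y = 0) (t : ℝ) :
    pN κ (σ + t • y) = σ := by
  rw [map_add, map_smul, h3, smul_zero, add_zero, pN_self rot h1]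

theorem gam_mem (rot : RotStatement) (hN : NData G κ F)
    (h1 : pP κ σ = 0) (h2 : σ ≠ 0) (h3 : pN κ y = 0) (t : ℝ) :
    gam F σ y t ∈ Om (Fin 5) := by
  have h := hN.norm (σ + t • y) (by rw [pN_ray rot h1 h3]; exact h2)
  rw [pN_ray rot h1 h3] at h
  have : ‖F (σ + t • y)‖ ≠ 0 := by rw [h]; exact norm_ne_zero_iff.2 h2
  exact norm_ne_zero_iff.1 this

theorem BV_pos (rot : RotStatement) (bnd : BndStatement) (hS : Setup G κ a b) (hN : NData G κ F)
    (h1 : pP κ σ = 0) (h2 : σ ≠ 0) (h3 : pN κ y = 0) (h4 : ‖y‖ = 1) {t : ℝ} (ht0 : 0 < t)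
    (ht : t < Real.pi / 2) {w : E5} (hw : w ≠ 0) : 0 < BV G κ F σ y t w w := by
  rw [BV_apply]
  by_cases h : pN κ w = 0
  · have h5 := ((bnd G κ a b F hS hN σ y h1 h2 h3 h4 w t).2 h ht0
      (by linarith [Real.pi_pos])).2
    refine lt_of_lt_of_le ?_ h5
    have h6 : 0 < Real.sin t := Real.sin_pos_of_pos_of_lt_pi ht0 (by linarith [Real.pi_pos])
    have h7 : 0 < ⟪w, w⟫ := real_inner_self_pos.2 hw
    positivity
  · have h5 := ((bnd G κ a b F hS hN σ y h1 h2 h3 h4 w t).1 ht0.le ht).2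
    refine lt_of_lt_of_le ?_ h5
    have h6 : 0 < Real.cos t := Real.cos_pos_of_mem_Ioo ⟨by linarith, ht⟩
    have h7 := hS.cyl.metric.pos σ h2 _ h
    positivity

theorem card_cases (h : Cs κ a b) : κ.card = 4 ∨ κ.card = 2 := by
  rcases h with ⟨h, -⟩ | ⟨h, -⟩ | ⟨h, -⟩ <;> subst h
  · left; rfl
  · right; rfl
  · right; rfl

theorem tr_bound (rot : RotStatement) (fll : FllStatement) (flb : FlbStatement)
    (flc : FlcStatement) (bnd : BndStatement) (lin : LinStatement)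
    (hS : Setup G κ a b) (hN : NData G κ F)
    (h1 : pP κ σ = 0) (h2 : σ ≠ 0) (h3 : pN κ y = 0) (h4 : ‖y‖ = 1) {t : ℝ} (ht0 : 0 < t)
    (ht : t < Real.pi / 2) {C : Bil E5} (hC : ∀ v w, C v w =
      G (gam F σ y t) (DVf G κ F σ y v t) (Vf κ F σ y w t)) :
    t⁻¹ + ((κ.card - 1 : ℕ) : ℝ) * Real.cot t - ((4 - κ.card : ℕ) : ℝ) * Real.tan t ≤
      ((gm (BV G κ F σ y t))⁻¹ * gm C).trace := by
  have hy : y ≠ 0 := by
    intro h
    rw [h, norm_zero] at h4
    exact zero_ne_one h4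
  have hgm := gam_mem rot hN h1 h2 h3 t
  refine lin κ (BV G κ F σ y t) C t⁻¹ (Real.cot t) (Real.tan t) σ y (card_cases hS.cs) h1 h2 h3 hy
    ?_ ?_ ?_ ?_ ?_ ?_ ?_ ?_ ?_
  · intro v w
    exact hS.cyl.metric.symm _ hgm _ _
  · intro v hv
    exact BV_pos rot bnd hS hN h1 h2 h3 h4 ht0 ht hv
  · intro v w
    rw [hC, hC, flc G κ a b F hS hN σ y h1 h2 h3 h4 v w t]
    exact hS.cyl.metric.symm _ hgm _ _
  · intro w hw
    obtain ⟨-, -, -, -, -, ⟨f9, -⟩, -, -, f12⟩ := flb G κ a b F hS hN σ y h1 h2 h3 h4 w w t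
    rw [BV_apply, f9, map_smul, _root_.smul_apply, f12, hw]
    simp
  · intro w hw
    obtain ⟨-, -, -, -, -, -, ⟨f10, -⟩, f11, -⟩ := flb G κ a b F hS hN σ y h1 h2 h3 h4 w w t
    rw [BV_apply, f10, f11, hw, zero_div]
  · intro w
    obtain ⟨-, -, -, -, -, ⟨f9, f9'⟩, -, -, f12⟩ := flb G κ a b F hS hN σ y h1 h2 h3 h4 w w t
    rw [BV_apply, hC, f9, f9', map_smul, _root_.smul_apply, smul_eq_mul, ← mul_assoc,
      inv_mul_cancel₀ ht0.ne', one_mul]
  · intro w
    obtain ⟨-, -, -, -, -, -, ⟨-, f10'⟩, -, -⟩ := flb G κ a b F hS hN σ y h1 h2 h3 h4 w w t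
    rw [hC, f10', map_zero]
    rfl
  · intro w
    rw [hC, BV_apply]
    exact ((bnd G κ a b F hS hN σ y h1 h2 h3 h4 w t).1 ht0.le ht).1
  · intro w hw
    rw [hC, BV_apply]
    exact ((bnd G κ a b F hS hN σ y h1 h2 h3 h4 w t).2 hw ht0 (by linarith [Real.pi_pos])).1

theorem gm_hasDerivAt (fla : FlaStatement) (flc : FlcStatement)
    (hS : Setup G κ a b) (hN : NData G κ F)
    (h1 : pP κ σ = 0) (h2 : σ ≠ 0) (h3 : pN κ y = 0) (h4 : ‖y‖ = 1) (t : ℝ)
    {C : Bil E5} (hC : ∀ v w, C v w =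
      G (gam F σ y t) (DVf G κ F σ y v t) (Vf κ F σ y w t)) (i j : Fin 5) :
    HasDerivAt (fun s => gm (BV G κ F σ y s) i j) (((2 : ℝ) • gm C) i j) t := by
  have h := (fla G κ a b F hS hN σ y h1 h2 h3 h4 (eb i) (eb j) t).1
  have h5 : ((2 : ℝ) • gm C) i j =
      G (gam F σ y t) (DVf G κ F σ y (eb i) t) (Vf κ F σ y (eb j) t)
        + G (gam F σ y t) (Vf κ F σ y (eb i) t) (DVf G κ F σ y (eb j) t) := by
    rw [← flc G κ a b F hS hN σ y h1 h2 h3 h4 (eb i) (eb j) t, Matrix.smul_apply, smul_eq_mul]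
    show 2 * C (eb i) (eb j) = _
    rw [hC]
    ring
  rw [h5]
  exact h

theorem pP_eb (κ : Finset (Fin 5)) (i : Fin 5) : pP κ (eb i) = if i ∈ κ then eb i else 0 := by
  have h : ∀ x : Fin 5, (EuclideanSpace.proj x : E5 →L[ℝ] ℝ) (eb i) = if x = i then 1 else 0 := by
    intro x
    show (eb i : E5) x = _
    simp [eb, Pi.single_apply]
  simp only [pP, _root_.sum_apply, ContinuousLinearMap.smulRight_apply, h, ite_smul, one_smul,
    zero_smul, Finset.sum_ite_eq']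

theorem Vf_eb (rot : RotStatement) (i : Fin 5) (t : ℝ) :
    Vf κ F σ y (eb i) t = (if i ∈ κ then t else 1) • fderiv ℝ F (σ + t • y) (eb i) := by
  have h := rot.1 κ (eb i)
  unfold Vf
  rw [pP_eb] at h ⊢
  by_cases hi : i ∈ κ
  · rw [if_pos hi] at h ⊢
    rw [if_pos hi]
    have h5 : pN κ (eb i) = 0 := by simpa using h
    rw [h5, zero_add, map_smul]
  · rw [if_neg hi] at h ⊢
    rw [if_neg hi]
    rw [add_zero] at h
    rw [h, smul_zero, add_zero, one_smul]

theorem det_BV (rot : RotStatement) (t : ℝ) : (gm (BV G κ F σ y t)).det =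
    (t ^ κ.card) ^ 2 * (gm (pullb G F (σ + t • y))).det := by
  have h : gm (BV G κ F σ y t) = Matrix.of fun i j => (if i ∈ κ then t else 1) *
      (Matrix.of fun i j => (if j ∈ κ then t else 1) * gm (pullb G F (σ + t • y)) i j) i j := by
    ext i j
    show G (gam F σ y t) (Vf κ F σ y (eb i) t) (Vf κ F σ y (eb j) t) =
      (if i ∈ κ then t else 1) * ((if j ∈ κ then t else 1) *
        (G (F (σ + t • y)) (fderiv ℝ F (σ + t • y) (eb i)) (fderiv ℝ F (σ + t • y) (eb j))))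
    rw [Vf_eb rot, Vf_eb rot, map_smul, map_smul, _root_.smul_apply, smul_eq_mul, smul_eq_mul]
    unfold gam
    ring
  have h5 : ∏ i, (if i ∈ κ then t else 1) = t ^ κ.card := by
    rw [Finset.prod_ite_mem, Finset.univ_inter, Finset.prod_const]
  rw [h, Matrix.det_mul_column, Matrix.det_mul_row, h5]
  ring

theorem jac_pos (κ : Finset (Fin 5)) {t : ℝ} (ht0 : 0 < t) (ht : t < Real.pi / 2) :
    0 < jac κ t := by
  have h6 : 0 < Real.sin t := Real.sin_pos_of_pos_of_lt_pi ht0 (by linarith [Real.pi_pos])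
  have h7 : 0 < Real.cos t := Real.cos_pos_of_mem_Ioo ⟨by linarith, ht⟩
  unfold jac
  positivity

theorem jac_tendsto (κ : Finset (Fin 5)) :
    Filter.Tendsto (jac κ) (𝓝[>] 0) (𝓝 1) := by
  have h1 : Filter.Tendsto (fun s : ℝ => Real.sin s / s) (𝓝[>] 0) (𝓝 1) := by
    have h2 : Filter.Tendsto Real.sinc (𝓝[>] 0) (𝓝 1) := by
      have := (Real.continuous_sinc.tendsto 0).mono_left (nhdsWithin_le_nhds (s := Ioi (0 : ℝ)))
      rwa [Real.sinc_zero] at this
    refine h2.congr' ?_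
    filter_upwards [self_mem_nhdsWithin] with s hs
    exact Real.sinc_of_ne_zero (ne_of_gt hs)
  have h3 : Filter.Tendsto (fun s : ℝ => Real.cos s) (𝓝[>] 0) (𝓝 1) := by
    have := (Real.continuous_cos.tendsto 0).mono_left (nhdsWithin_le_nhds (s := Ioi (0 : ℝ)))
    rwa [Real.cos_zero] at this
  have h4 := (h1.pow (κ.card - 1)).mul (h3.pow (4 - κ.card))
  rw [one_pow, one_pow, one_mul] at h4
  exact h4

theorem Dz_continuousAt (rot : RotStatement) (hS : Setup G κ a b) (hN : NData G κ F)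
    (h1 : pP κ σ = 0) (h2 : σ ≠ 0) : ContinuousAt (fun z => Dz G F z) σ := by
  have hpn : pN κ σ ≠ 0 := by
    rw [pN_self rot h1]
    exact h2
  have hopen : IsOpen {z : E5 | pN κ z ≠ 0} := isOpen_ne.preimage (pN κ).continuous
  have hF : ContDiffAt ℝ ∞ F σ := hN.smooth.contDiffAt (hopen.mem_nhds hpn)
  have hFd : ContinuousAt (fderiv ℝ F) σ := (hF.fderiv_right (m := ∞) (by simp)).continuousAt
  have hGF : ContinuousAt (fun z => G (F z)) σ := by
    refine ContinuousAt.comp (g := G) ?_ hF.continuousAt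
    rw [hN.base σ h1 h2]
    exact (hS.cyl.metric.contDiffAt h2).continuousAt
  have hdet : ContinuousAt (fun z => (gm (pullb G F z)).det) σ := by
    refine continuousAt_det fun i j => ?_
    exact (hGF.clm_apply (hFd.clm_apply continuousAt_const)).clm_apply
      (hFd.clm_apply continuousAt_const)
  exact Real.continuous_sqrt.continuousAt.comp hdet

theorem g_pos (rot : RotStatement) (bnd : BndStatement) (sdf : SdfStatement)
    (hS : Setup G κ a b) (hN : NData G κ F)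
    (h1 : pP κ σ = 0) (h2 : σ ≠ 0) (h3 : pN κ y = 0) (h4 : ‖y‖ = 1) {t : ℝ}
    (ht : t ∈ Ioo 0 (Real.pi / 2)) : 0 < (gm (BV G κ F σ y t)).det :=
  (sdf (Fin 5)).1 _
    (fun _ _ => hS.cyl.metric.symm _ (gam_mem rot hN h1 h2 h3 t) _ _)
    (fun _ hv => BV_pos rot bnd hS hN h1 h2 h3 h4 ht.1 ht.2 hv)

/-- the comparison function -/
def Hf (G : E5 → Bil E5) (κ : Finset (Fin 5)) (F : E5 → E5) (σ y : E5) (t : ℝ) : ℝ :=
  Real.log (gm (BV G κ F σ y t)).det - 2 * (Real.log t + ((κ.card - 1 : ℕ) : ℝ) *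
    Real.log (Real.sin t) + ((4 - κ.card : ℕ) : ℝ) * Real.log (Real.cos t))

theorem Hf_deriv (rot : RotStatement) (fla : FlaStatement) (fll : FllStatement)
    (flb : FlbStatement) (flc : FlcStatement) (bnd : BndStatement) (lin : LinStatement)
    (sdf : SdfStatement) (hS : Setup G κ a b) (hN : NData G κ F)
    (h1 : pP κ σ = 0) (h2 : σ ≠ 0) (h3 : pN κ y = 0) (h4 : ‖y‖ = 1) {t : ℝ}
    (ht : t ∈ Ioo 0 (Real.pi / 2)) : ∃ H', HasDerivAt (Hf G κ F σ y) H' t ∧ 0 ≤ H' := by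
  have hs : 0 < Real.sin t := Real.sin_pos_of_pos_of_lt_pi ht.1 (by linarith [Real.pi_pos, ht.2])
  have hc : 0 < Real.cos t := Real.cos_pos_of_mem_Ioo ⟨by linarith [ht.1, Real.pi_pos], ht.2⟩
  have hg := g_pos rot bnd sdf hS hN h1 h2 h3 h4 ht
  obtain ⟨C, hC⟩ := exists_CV fll hS hN h1 h2 h3 t
  have hd := hasDerivAt_det (A := fun s => gm (BV G κ F σ y s)) (A' := (2 : ℝ) • gm C)
    (fun i j => gm_hasDerivAt fla flc hS hN h1 h2 h3 h4 t hC i j)
  have e1 := hd.log hg.ne'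
  have e2 := (Real.hasDerivAt_sin t).log hs.ne'
  have e3 := (Real.hasDerivAt_cos t).log hc.ne'
  have e4 := Real.hasDerivAt_log ht.1.ne'
  have e5 := e1.sub ((((e4.add (e2.const_mul ((κ.card - 1 : ℕ) : ℝ))).add
    (e3.const_mul ((4 - κ.card : ℕ) : ℝ)))).const_mul 2)
  refine ⟨_, e5, ?_⟩
  have tb := tr_bound rot fll flb flc bnd lin hS hN h1 h2 h3 h4 ht.1 ht.2 hC
  have e6 : ((gm (BV G κ F σ y t)).adjugate * ((2 : ℝ) • gm C)).trace /
      (gm (BV G κ F σ y t)).det = 2 * ((gm (BV G κ F σ y t))⁻¹ * gm C).trace := by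
    rw [Matrix.mul_smul, Matrix.trace_smul, trace_inv hg.ne', smul_eq_mul]
    field_simp
  rw [e6]
  rw [Real.cot_eq_cos_div_sin, Real.tan_eq_sin_div_cos] at tb
  have e7 : -Real.sin t / Real.cos t = - (Real.sin t / Real.cos t) := neg_div _ _
  rw [e7]
  linarith

theorem Hf_mono (rot : RotStatement) (fla : FlaStatement) (fll : FllStatement)
    (flb : FlbStatement) (flc : FlcStatement) (bnd : BndStatement) (lin : LinStatement)
    (sdf : SdfStatement) (hS : Setup G κ a b) (hN : NData G κ F)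
    (h1 : pP κ σ = 0) (h2 : σ ≠ 0) (h3 : pN κ y = 0) (h4 : ‖y‖ = 1) :
    MonotoneOn (Hf G κ F σ y) (Ioo 0 (Real.pi / 2)) := by
  have key := fun t (ht : t ∈ Ioo 0 (Real.pi / 2)) =>
    Hf_deriv rot fla fll flb flc bnd lin sdf hS hN h1 h2 h3 h4 ht
  refine monotoneOn_of_deriv_nonneg (convex_Ioo _ _) ?_ ?_ ?_
  · intro t ht
    obtain ⟨H', h, -⟩ := key t ht
    exact h.continuousAt.continuousWithinAt
  · intro t ht
    rw [interior_Ioo] at ht
    obtain ⟨H', h, -⟩ := key t ht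
    exact h.differentiableAt.differentiableWithinAt
  · intro t ht
    rw [interior_Ioo] at ht
    obtain ⟨H', h, h'⟩ := key t ht
    rw [h.deriv]
    exact h'

theorem Hf_eq (rot : RotStatement) (bnd : BndStatement) (sdf : SdfStatement)
    (hS : Setup G κ a b) (hN : NData G κ F)
    (h1 : pP κ σ = 0) (h2 : σ ≠ 0) (h3 : pN κ y = 0) (h4 : ‖y‖ = 1) {t : ℝ}
    (ht : t ∈ Ioo 0 (Real.pi / 2)) : 0 < Dz G F (σ + t • y) ∧
      Hf G κ F σ y t = 2 * Real.log (Dz G F (σ + t • y) / jac κ t) := by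
  have hs : 0 < Real.sin t := Real.sin_pos_of_pos_of_lt_pi ht.1 (by linarith [Real.pi_pos, ht.2])
  have hc : 0 < Real.cos t := Real.cos_pos_of_mem_Ioo ⟨by linarith [ht.1, Real.pi_pos], ht.2⟩
  have hg := g_pos rot bnd sdf hS hN h1 h2 h3 h4 ht
  have h0 : 0 < t := ht.1
  have hp : 0 < (t ^ κ.card) ^ 2 := by positivity
  rw [det_BV rot] at hg
  have hD : 0 < (gm (pullb G F (σ + t • y))).det := pos_of_mul_pos_right hg hp.le
  have hDz : 0 < Dz G F (σ + t • y) := Real.sqrt_pos.2 hD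
  refine ⟨hDz, ?_⟩
  have hcard : (κ.card : ℝ) = ((κ.card - 1 : ℕ) : ℝ) + 1 := by
    rcases card_cases hS.cs with h | h <;> rw [h] <;> norm_num
  have e1 : Real.log (Dz G F (σ + t • y)) = Real.log (gm (pullb G F (σ + t • y))).det / 2 :=
    Real.log_sqrt hD.le
  have hst : 0 < Real.sin t / t := div_pos hs h0
  unfold Hf
  rw [det_BV rot, Real.log_mul hp.ne' hD.ne', Real.log_div hDz.ne' (jac_pos κ ht.1 ht.2).ne', e1]
  unfold jac
  rw [Real.log_mul (pow_pos hst _).ne' (pow_pos hc _).ne', Real.log_pow, Real.log_pow,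
    Real.log_pow, Real.log_pow, Real.log_div hs.ne' h0.ne', hcard]
  push_cast
  ring

theorem Dz_mono (rot : RotStatement) (fla : FlaStatement) (fll : FllStatement)
    (flb : FlbStatement) (flc : FlcStatement) (bnd : BndStatement) (lin : LinStatement)
    (sdf : SdfStatement) (hS : Setup G κ a b) (hN : NData G κ F)
    (h1 : pP κ σ = 0) (h2 : σ ≠ 0) (h3 : pN κ y = 0) (h4 : ‖y‖ = 1) {s t : ℝ} (hs : 0 < s)
    (hst : s ≤ t) (ht : t < Real.pi / 2) :
    Dz G F (σ + s • y) * jac κ t ≤ Dz G F (σ + t • y) * jac κ s := by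
  have ms : s ∈ Ioo 0 (Real.pi / 2) := ⟨hs, lt_of_le_of_lt hst ht⟩
  have mt : t ∈ Ioo 0 (Real.pi / 2) := ⟨lt_of_lt_of_le hs hst, ht⟩
  have key := Hf_mono rot fla fll flb flc bnd lin sdf hS hN h1 h2 h3 h4 ms mt hst
  obtain ⟨ps, es⟩ := Hf_eq rot bnd sdf hS hN h1 h2 h3 h4 ms
  obtain ⟨pt, et⟩ := Hf_eq rot bnd sdf hS hN h1 h2 h3 h4 mt
  rw [es, et] at key
  have js := jac_pos κ ms.1 ms.2
  have jt := jac_pos κ mt.1 mt.2
  have key2 := (Real.log_le_log_iff (div_pos ps js) (div_pos pt jt)).1 (by linarith)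
  rw [div_le_div_iff₀ js jt] at key2
  exact key2

end fields

theorem det (rot : RotStatement) (fla : FlaStatement) (fll : FllStatement)
    (flb : FlbStatement) (flc : FlcStatement) (bnd : BndStatement) (lin : LinStatement)
    (sdf : SdfStatement) (_ : InvStatement) : DetStatement := by
  intro G κ a b F hS hN σ y h1 h2 h3 h0 hpi
  have hy0 : ‖y‖ ≠ 0 := h0.ne'
  have h3' : pN κ (‖y‖⁻¹ • y) = 0 := by rw [map_smul, h3, smul_zero]
  have h4' : ‖‖y‖⁻¹ • y‖ = 1 := by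
    rw [norm_smul, norm_inv, norm_norm, inv_mul_cancel₀ hy0]
  have hey : ‖y‖ • (‖y‖⁻¹ • y) = y := by
    rw [smul_smul, mul_inv_cancel₀ hy0, one_smul]
  have hev : ∀ᶠ s in 𝓝[>] (0 : ℝ), Dz G F (σ + s • (‖y‖⁻¹ • y)) * jac κ ‖y‖ ≤
      Dz G F (σ + y) * jac κ s := by
    filter_upwards [Ioo_mem_nhdsGT h0] with s hs
    have := Dz_mono rot fla fll flb flc bnd lin sdf hS hN h1 h2 h3' h4' hs.1 hs.2.le hpi
    rwa [hey] at this
  have l1 : Filter.Tendsto (fun s : ℝ => Dz G F (σ + s • (‖y‖⁻¹ • y)) * jac κ ‖y‖) (𝓝[>] 0)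
      (𝓝 (Dz G F σ * jac κ ‖y‖)) := by
    refine Filter.Tendsto.mul_const _ ?_
    have h5 : Filter.Tendsto (fun s : ℝ => σ + s • (‖y‖⁻¹ • y)) (𝓝[>] 0) (𝓝 σ) := by
      have h6 : Continuous (fun s : ℝ => σ + s • (‖y‖⁻¹ • y)) :=
        continuous_const.add (continuous_id.smul continuous_const)
      have := (h6.tendsto 0).mono_left (nhdsWithin_le_nhds (s := Ioi (0 : ℝ)))
      rwa [zero_smul, add_zero] at this
    exact (Dz_continuousAt rot hS hN h1 h2).tendsto.comp h5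
  have l2 : Filter.Tendsto (fun s : ℝ => Dz G F (σ + y) * jac κ s) (𝓝[>] 0)
      (𝓝 (Dz G F (σ + y))) := by
    have := (jac_tendsto κ).const_mul (Dz G F (σ + y))
    rwa [mul_one] at this
  exact le_of_tendsto_of_tendsto l1 l2 hev

end Pool.Agent.MVZ.H3
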