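import Pool.Agent.MVZ.StmtsP
import Pool.Agent.Helper77_MVS.FRM
import Pool.Agent.Helper67_MVS.NOZ
import Pool.Agent.Helper3_MVS.HEX
import Pool.Agent.Helper5_RF.Cyl

/-!
# MVZ: EQV, FRM, NOZ, COI without symmetry (MP_33f2b9_gt)
-/

noncomputable section

open scoped ContDiff Topology RealInnerProductSpace
open Set MeasureTheory

namespace Pool.Agent.MVZ.H35

open Pool.Agent.RF Pool.Agent.MVS

theorem frm : FrmStatement := by
  intro G κ a b hS
  have hκ := hS.four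
  subst hκ
  exact H77.frm4 hS.cyl

/-- `N` is one-dimensional -/
theorem mul_of (σ v : E5) (hσ : pP {0, 1, 2, 3} σ = 0) (hσ0 : σ ≠ 0) (hv : pP {0, 1, 2, 3} v = 0) :
    ∃ c : ℝ, v = c • σ := by
  have h0 := H77.pP_zero.mp hσ
  have h1 := H77.pP_zero.mp hv
  have h4 : σ 4 ≠ 0 := by
    intro h
    apply hσ0
    refine H77.ext5 fun j => ?_
    fin_cases j
    · exact h0 0 (by decide)
    · exact h0 1 (by decide)
    · exact h0 2 (by decide)
    · exact h0 3 (by decide)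
    · exact h
  refine ⟨v 4 / σ 4, H77.ext5 fun j => ?_⟩
  have e : ((v 4 / σ 4) • σ) j = v 4 / σ 4 * σ j := rfl
  rw [e]
  fin_cases j
  · change v 0 = v 4 / σ 4 * σ 0
    rw [h0 0 (by decide), h1 0 (by decide), mul_zero]
  · change v 1 = v 4 / σ 4 * σ 1
    rw [h0 1 (by decide), h1 1 (by decide), mul_zero]
  · change v 2 = v 4 / σ 4 * σ 2
    rw [h0 2 (by decide), h1 2 (by decide), mul_zero]
  · change v 3 = v 4 / σ 4 * σ 3
    rw [h0 3 (by decide), h1 3 (by decide), mul_zero]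
  · change v 4 = v 4 / σ 4 * σ 4
    rw [div_mul_cancel₀ _ h4]

theorem eqv (hR : RotStatement) : EqvStatement := by
  intro G κ a b hS
  have hκ := hS.four
  subst hκ
  refine ⟨trivial, ?_, ?_⟩
  · intro σ hσ hσ0 v w hv hw
    obtain ⟨c, rfl⟩ := mul_of σ v hσ hσ0 hv
    have h1 : G σ (c • σ) w = c * G σ σ w := by
      rw [map_smul]; rfl
    rw [h1, hS.cyl.radial σ hσ0 w]
    have h2 : (⟪σ, w⟫ : ℝ) = 0 := by
      have e1 := hR.1 {0, 1, 2, 3} σ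
      have e2 := hR.1 {0, 1, 2, 3} w
      rw [hσ, add_zero] at e1
      rw [hw, zero_add] at e2
      rw [← e1, ← e2]
      exact hR.2.1 _ _ _
    rw [h2, zero_div, mul_zero]
  · intro σ hσ hσ0 v w hv hw
    obtain ⟨c, rfl⟩ := mul_of σ v hσ hσ0 hv
    obtain ⟨d, rfl⟩ := mul_of σ w hσ hσ0 hw
    rw [RF.chris_smul_left, RF.chris_smul_right]
    have h1 : chris G σ σ σ = -σ := H5.cyl_chris_x chrStatement hS.cyl hσ0 σ
    rw [h1, map_smul, map_smul, map_neg, hσ, neg_zero, smul_zero, smul_zero]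

theorem noz (hR : RotStatement) (hE : ExbStatement) (hU : UnqStatement) : NozStatement := by
  intro G κ a b F hS hN z hz hz0 hzpi hcon
  obtain ⟨ex, hex⟩ := hE G hS.cyl
  obtain ⟨r1, _, _, _, r5, r6, r7, r8, _⟩ := id hR
  obtain ⟨σ, hσd⟩ : ∃ σ, σ = pN κ z := ⟨_, rfl⟩
  obtain ⟨y, hyd⟩ : ∃ y, y = pP κ z := ⟨_, rfl⟩
  have hσ : pP κ σ = 0 := by rw [hσd]; exact r7 κ z
  have hσ0 : σ ≠ 0 := by rw [hσd]; exact hz
  have hy : pN κ y = 0 := by rw [hyd]; exact r8 κ z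
  have hzz : z = σ + (1 : ℝ) • y := by rw [one_smul, hσd, hyd, r1]
  have hv : HasDerivAt (gam F σ y) (Tv F σ y 0) 0 := H67.gam_deriv hR hN hσ hσ0 hy 0
  have hT0 : Tv F σ y 0 = fderiv ℝ F σ y := by
    simp only [Tv, zero_smul, add_zero]
  have key := hU G hS.cyl 1 zero_le_one (gam F σ y) (fun t : ℝ => ex (σ, t • fderiv ℝ F σ y))
    (Tv F σ y) (deriv (fun t : ℝ => ex (σ, t • fderiv ℝ F σ y)))
    (fun t _ => ⟨H67.gam_mem hR hN hσ hσ0 hy t, hex.mem σ hσ0 _⟩)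
    (fun t _ => ⟨(H67.gam_deriv hR hN hσ hσ0 hy t).hasDerivWithinAt,
      (H67.Tv_deriv hR hN hσ hσ0 hy t).hasDerivWithinAt⟩)
    (fun t _ => ⟨(H3.ray_hd hex hσ0 _ t).hasDerivWithinAt,
      (H3.ray_hd2 hex hσ0 _ t).hasDerivWithinAt⟩)
    (by
      simp only [gam, zero_smul, add_zero]
      rw [hN.base σ hσ hσ0, hex.zero σ hσ0])
    (by rw [hT0, hex.init σ hσ0]) 1 ⟨zero_le_one, le_rfl⟩
  have k1 : F z = ex (σ, fderiv ℝ F σ y) := by
    have := key.1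
    simp only [gam, one_smul] at this
    rw [hzz, one_smul]
    exact this
  have hiso := hN.iso σ hσ hσ0 y y hy hy
  have hy0 : y ≠ 0 := by
    intro h
    rw [← hyd, h, norm_zero] at hz0
    exact lt_irrefl _ hz0
  have hyy : (⟪y, y⟫ : ℝ) = ‖y‖ ^ 2 := real_inner_self_eq_norm_sq y
  have hv0 : fderiv ℝ F σ y ≠ 0 := by
    intro h
    rw [h, map_zero] at hiso
    have : (⟪y, y⟫ : ℝ) = 0 := hiso.symm
    rw [hyy] at this
    exact hy0 (norm_eq_zero.mp (pow_eq_zero_iff (by norm_num) |>.mp this))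
  have hlt : G σ (fderiv ℝ F σ y) (fderiv ℝ F σ y) < Real.pi ^ 2 := by
    rw [hiso, hyy, hyd]
    exact pow_lt_pow_left₀ hzpi (norm_nonneg _) (by norm_num)
  refine hS.noz ex hex σ hσ hσ0 _ (hN.dP σ hσ hσ0 y hy) hv0 hlt ?_
  rw [← k1]
  exact hcon

theorem coi (hA : CoaStatement) (hB : CobStatement) : CoiStatement := by
  intro G κ a b F hS hF z₁ z₂ h1 h2 h3 h4 h5
  by_contra hne
  obtain ⟨w₁, w₂, g1, g2, g3, g4, g5, g6, g7, g8⟩ :=
    hA G κ a b F hS hF ⟨z₁, z₂, h1, h2, h3, h4, h5, hne⟩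
  exact hB G κ a b F hS hF w₁ w₂ g1 g2 g3 g4 g5 g6 g7 g8

end Pool.Agent.MVZ.H35
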