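import Pool.Agent.Helper35_MVZ.Base45

/-!
# MVS: derivatives of the field data along a normal geodesic (FLA)
-/

noncomputable section

open scoped ContDiff Topology RealInnerProductSpace
set_option maxSynthPendingDepth 3
open Set

namespace Pool.Agent.MVZ.H45

open Pool.Agent.RF Pool.Agent.MVS

variable {G : E5 → Bil E5} {κ : Finset (Fin 5)} {a b : ℝ} {F : E5 → E5}

/-- the variation `(s,t) ↦ σ + s n + t (y + s w)` -/
def mm (σ y n w : E5) (q : ℝ × ℝ) : E5 := σ + q.1 • n + q.2 • (y + q.1 • w)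

/-- its derivative -/
def mL (y n w : E5) (q : ℝ × ℝ) : ℝ × ℝ →L[ℝ] E5 :=
  (ContinuousLinearMap.fst ℝ ℝ ℝ).smulRight (n + q.2 • w)
    + (ContinuousLinearMap.snd ℝ ℝ ℝ).smulRight (y + q.1 • w)

theorem mL_one_zero (y n w : E5) (q : ℝ × ℝ) : mL y n w q (1, 0) = n + q.2 • w := by
  simp [mL]

theorem mL_zero_one (y n w : E5) (q : ℝ × ℝ) : mL y n w q (0, 1) = y + q.1 • w := by
  simp [mL]

theorem hasFDerivAt_mm (σ y n w : E5) (q : ℝ × ℝ) :
    HasFDerivAt (mm σ y n w) (mL y n w q) q := by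
  have h1 : HasFDerivAt (fun r : ℝ × ℝ => r.1) (ContinuousLinearMap.fst ℝ ℝ ℝ) q := hasFDerivAt_fst
  have h2 : HasFDerivAt (fun r : ℝ × ℝ => r.2) (ContinuousLinearMap.snd ℝ ℝ ℝ) q := hasFDerivAt_snd
  have h3 := (h1.smul_const n).const_add σ
  have h4 := (h1.smul_const w).const_add y
  have h5 := h3.add (h2.smul h4)
  refine h5.congr_fderiv ?_
  ext v i
  · simp [mL]
    try ring
  · simp [mL]
    try ring

theorem contDiff_mm (σ y n w : E5) : ContDiff ℝ ∞ (mm σ y n w) := by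
  unfold mm
  fun_prop

/-- the domain of the variation -/
def mO (σ n : E5) : Set (ℝ × ℝ) := {q | σ + q.1 • n ≠ 0}

theorem isOpen_mO (σ n : E5) : IsOpen (mO σ n) := by
  have : Continuous (fun q : ℝ × ℝ => σ + q.1 • n) := by fun_prop
  exact isOpen_compl_singleton.preimage this

section
variable (hR : RotStatement) (hN : NData G κ F) {σ y n w : E5} (hσ : pP κ σ = 0)
  (hy : pN κ y = 0) (hn : pP κ n = 0) (hw : pN κ w = 0)
include hR hσ hy hn hw

theorem pN_mm (q : ℝ × ℝ) : pN κ (mm σ y n w q) = σ + q.1 • n := by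
  have ha : pP κ (σ + q.1 • n) = 0 := by rw [map_add, map_smul, hσ, hn, smul_zero, add_zero]
  have hb : pN κ (y + q.1 • w) = 0 := by rw [map_add, map_smul, hy, hw, smul_zero, add_zero]
  exact pN_line hR ha hb q.2

theorem pN_mm_ne {q : ℝ × ℝ} (hq : q ∈ mO σ n) : pN κ (mm σ y n w q) ≠ 0 := by
  rw [pN_mm hR hσ hy hn hw]; exact hq

include hN

theorem hasFDerivAt_cc {q : ℝ × ℝ} (hq : q ∈ mO σ n) :
    HasFDerivAt (fun r => F (mm σ y n w r)) ((fderiv ℝ F (mm σ y n w q)).comp (mL y n w q)) q := by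
  have h1 : DifferentiableAt ℝ F (mm σ y n w q) :=
    (cdF hN (pN_mm_ne hR hσ hy hn hw hq)).differentiableAt (by simp)
  exact h1.hasFDerivAt.comp q (hasFDerivAt_mm σ y n w q)

theorem hasFDerivAt_dcc {q : ℝ × ℝ} (hq : q ∈ mO σ n) {W : ℝ × ℝ → E5} {W' : ℝ × ℝ →L[ℝ] E5}
    (hW : HasFDerivAt W W' q) :
    HasFDerivAt (fun r => fderiv ℝ F (mm σ y n w r) (W r))
      ((fderiv ℝ F (mm σ y n w q)).comp W' +
        ((fderiv ℝ (fderiv ℝ F) (mm σ y n w q)).comp (mL y n w q)).flip (W q)) q := by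
  have h1 : DifferentiableAt ℝ (fderiv ℝ F) (mm σ y n w q) :=
    (H5.fd_contDiffAt (cdF hN (pN_mm_ne hR hσ hy hn hw hq))).differentiableAt (by simp)
  exact (h1.hasFDerivAt.comp q (hasFDerivAt_mm σ y n w q)).clm_apply hW

theorem fd_cc {q : ℝ × ℝ} (hq : q ∈ mO σ n) (e : ℝ × ℝ) :
    fderiv ℝ (fun r => F (mm σ y n w r)) q e = fderiv ℝ F (mm σ y n w q) (mL y n w q e) := by
  rw [(hasFDerivAt_cc hR hN hσ hy hn hw hq).fderiv]
  rfl

/-- second derivatives of the variation -/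
theorem fd2_cc {q : ℝ × ℝ} (hq : q ∈ mO σ n) (e e' : ℝ × ℝ) {W' : ℝ × ℝ →L[ℝ] E5}
    (hW : HasFDerivAt (fun r => mL y n w r e) W' q) :
    fderiv ℝ (fun r => fderiv ℝ (fun r => F (mm σ y n w r)) r e) q e' =
      fderiv ℝ F (mm σ y n w q) (W' e') +
        fderiv ℝ (fderiv ℝ F) (mm σ y n w q) (mL y n w q e') (mL y n w q e) := by
  have h1 : (fun r => fderiv ℝ (fun r => F (mm σ y n w r)) r e) =ᶠ[𝓝 q]
      (fun r => fderiv ℝ F (mm σ y n w r) (mL y n w r e)) := by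
    filter_upwards [(isOpen_mO σ n).mem_nhds hq] with r hr
    exact fd_cc hR hN hσ hy hn hw hr e
  rw [h1.fderiv_eq, (hasFDerivAt_dcc hR hN hσ hy hn hw hq hW).fderiv]
  rfl

end

theorem hasFDerivAt_mL01 (y n w : E5) (q : ℝ × ℝ) :
    HasFDerivAt (fun r => mL y n w r (0, 1)) ((ContinuousLinearMap.fst ℝ ℝ ℝ).smulRight w) q := by
  have h1 : HasFDerivAt (fun r : ℝ × ℝ => r.1) (ContinuousLinearMap.fst ℝ ℝ ℝ) q := hasFDerivAt_fst
  have h2 := (h1.smul_const w).const_add y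
  have h3 : (fun r : ℝ × ℝ => mL y n w r (0, 1)) = fun r => y + r.1 • w := by
    funext r; exact mL_zero_one y n w r
  rw [h3]; exact h2

theorem hasFDerivAt_mL10 (y n w : E5) (q : ℝ × ℝ) :
    HasFDerivAt (fun r => mL y n w r (1, 0)) ((ContinuousLinearMap.snd ℝ ℝ ℝ).smulRight w) q := by
  have h1 : HasFDerivAt (fun r : ℝ × ℝ => r.2) (ContinuousLinearMap.snd ℝ ℝ ℝ) q := hasFDerivAt_snd
  have h2 := (h1.smul_const w).const_add n
  have h3 : (fun r : ℝ × ℝ => mL y n w r (1, 0)) = fun r => n + r.2 • w := by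
    funext r; exact mL_one_zero y n w r
  rw [h3]; exact h2

/-- the derivative of `Vf` -/
theorem hasDerivAt_Vf (hR : RotStatement) (hN : NData G κ F) {σ y : E5} (hσ : pP κ σ = 0)
    (h0 : σ ≠ 0) (hy : pN κ y = 0) (w : E5) (t : ℝ) :
    HasDerivAt (Vf κ F σ y w)
      (fderiv ℝ (fderiv ℝ F) (σ + t • y) y (pN κ w + t • pP κ w)
        + fderiv ℝ F (σ + t • y) (pP κ w)) t :=
  hasDerivAt_DF hN (pN_line_ne hR hσ h0 hy t) (hasDerivAt_line σ y t)
    (hasDerivAt_line (pN κ w) (pP κ w) t)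

theorem fla (hR : RotStatement) (hM : McoStatement) (hJ : JeqStatement) : FlaStatement := by
  intro G κ a b F hSet hN σ y hσ h0 hy hy1 w w' t
  have hS := hSet.cyl.metric
  have h2 : ∀ w, pP κ (pN κ w) = 0 := hR.2.2.2.2.2.2.1 κ
  have h3 : ∀ w, pN κ (pP κ w) = 0 := hR.2.2.2.2.2.2.2.1 κ
  have hz := pN_line_ne hR hσ h0 hy t
  have hgam : HasDerivAt (gam F σ y) (Tv F σ y t) t := hasDerivAt_F hN hz (hasDerivAt_line σ y t)
  have hV : ∀ w, HasDerivAt (Vf κ F σ y w) (deriv (Vf κ F σ y w) t) t := fun w =>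
    (hasDerivAt_Vf hR hN hσ h0 hy w t).differentiableAt.hasDerivAt
  have hm : gam F σ y t ∈ Om (Fin 5) := memOm hN hz
  refine ⟨?_, ?_⟩
  · exact hM (Fin 5) G (Om (Fin 5)) hS _ _ _ _ _ _ t hm hgam (hV w) (hV w')
  · -- Jacobi equation
    set n := pN κ w with hn
    set p := pP κ w with hp
    have e0 : ∀ s : ℝ, ((0 : ℝ), s) ∈ mO σ n := by
      intro s
      simpa [mO] using h0
    have em : ∀ s : ℝ, mm σ y n p (0, s) = σ + s • y := by
      intro s; simp [mm]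
    let D : ℝ × ℝ → E5 := fun q => fderiv ℝ (fun r => fderiv ℝ (fun r => F (mm σ y n p r)) r (1, 0)) q (0, 1)
          + chris G (F (mm σ y n p q)) (fderiv ℝ (fun r => F (mm σ y n p r)) q (0, 1))
            (fderiv ℝ (fun r => F (mm σ y n p r)) q (1, 0))
    have hj := hJ (Fin 5) G (Om (Fin 5)) hS (mO σ n) (fun r => F (mm σ y n p r)) (isOpen_mO σ n)
      (by
        apply hN.smooth.comp (contDiff_mm σ y n p).contDiffOn
        intro q hq
        exact pN_mm_ne hR hσ hy (h2 w) (h3 w) hq)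
      (by
        intro q hq
        exact memOm hN (pN_mm_ne hR hσ hy (h2 w) (h3 w) hq))
      (by
        intro q hq
        rw [fd2_cc hR hN hσ hy (h2 w) (h3 w) hq _ _ (hasFDerivAt_mL01 y n p q),
          fd_cc hR hN hσ hy (h2 w) (h3 w) hq, mL_zero_one]
        have ha : pP κ (σ + q.1 • n) = 0 := by
          rw [map_add, map_smul, hσ, hn, h2 w, smul_zero, add_zero]
        have hb : pN κ (y + q.1 • p) = 0 := by
          rw [map_add, map_smul, hy, hp, h3 w, smul_zero, add_zero]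
        have hg := geo' hR hN ha hq hb q.2
        have e1 : ((ContinuousLinearMap.fst ℝ ℝ ℝ).smulRight p) ((0 : ℝ), (1 : ℝ)) = 0 := by simp
        rw [e1, map_zero, zero_add]
        exact eq_neg_of_add_eq_zero_left hg)
      D (fun q hq => rfl) (0, t) (e0 t)
    have eD : ∀ s : ℝ, DVf G κ F σ y w s = D (0, s) := by
      intro s
      have hq := e0 s
      show deriv (Vf κ F σ y w) s + chris G (gam F σ y s) (Tv F σ y s) (Vf κ F σ y w s) = _
      show _ = fderiv ℝ (fun r => fderiv ℝ (fun r => F (mm σ y n p r)) r (1, 0)) (0, s) (0, 1)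
          + chris G (F (mm σ y n p (0, s))) (fderiv ℝ (fun r => F (mm σ y n p r)) (0, s) (0, 1))
            (fderiv ℝ (fun r => F (mm σ y n p r)) (0, s) (1, 0))
      rw [fd2_cc hR hN hσ hy (h2 w) (h3 w) hq _ _ (hasFDerivAt_mL10 y n p _),
        fd_cc hR hN hσ hy (h2 w) (h3 w) hq, fd_cc hR hN hσ hy (h2 w) (h3 w) hq,
        mL_zero_one, mL_one_zero, em, (hasDerivAt_Vf hR hN hσ h0 hy w s).deriv]
      have e1 : ((ContinuousLinearMap.snd ℝ ℝ ℝ).smulRight p) ((0 : ℝ), (1 : ℝ)) = p := by simp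
      rw [e1]
      simp only [zero_smul, add_zero]
      rw [add_comm (fderiv ℝ F (σ + s • y) p)]
      rfl
    have eT : fderiv ℝ (fun r => F (mm σ y n p r)) (0, t) (0, 1) = Tv F σ y t := by
      rw [fd_cc hR hN hσ hy (h2 w) (h3 w) (e0 t), mL_zero_one, em]
      simp [Tv]
    have eV : fderiv ℝ (fun r => F (mm σ y n p r)) (0, t) (1, 0) = Vf κ F σ y w t := by
      rw [fd_cc hR hN hσ hy (h2 w) (h3 w) (e0 t), mL_one_zero, em]
      rfl
    have hD : HasDerivAt (DVf G κ F σ y w) (fderiv ℝ D (0, t) (0, 1)) t := by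
      have h1 : HasDerivAt (fun s : ℝ => ((0 : ℝ), s)) ((0 : ℝ), (1 : ℝ)) t :=
        (hasDerivAt_const t (0 : ℝ)).prodMk (hasDerivAt_id t)
      have h4 := hj.1.hasFDerivAt.comp_hasDerivAt t h1
      have h5 : DVf G κ F σ y w = fun s => D (0, s) := funext eD
      rw [h5]
      exact h4
    have h6 := hM (Fin 5) G (Om (Fin 5)) hS _ _ _ _ _ _ t hm hgam hD (hV w')
    have h7 := hj.2
    rw [eT, eV, em] at h7
    refine h6.congr_deriv ?_
    rw [eD t]
    show G (gam F σ y t) (fderiv ℝ D (0, t) (0, 1) + chris G (F (σ + t • y)) (Tv F σ y t) (D (0, t))) _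
      + _ = _
    rw [h7]
    rfl

end Pool.Agent.MVZ.H45
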