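import Pool.Agent.Helper35_MVZ.Blk

/-!
MVS (helper96), row IN4: the case of two isolated fixed points.
-/

noncomputable section

open scoped ContDiff Topology RealInnerProductSpace
open Set MeasureTheory

namespace Pool.Agent.MVZ.H96

open Pool.Agent.RF Pool.Agent.MVS

def eP4 : Fin 4 ≃ {i : Fin 5 // i ≠ 4} := (finSuccAboveEquiv (4 : Fin 5))

def eN4 : Fin 1 ≃ {i : Fin 5 // ¬ i ≠ 4} where
  toFun _ := ⟨4, fun h => h rfl⟩
  invFun _ := 0
  left_inv _ := Subsingleton.elim _ _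
  right_inv x := Subtype.ext (not_not.1 x.2).symm

theorem hp4 : ∀ i : Fin 5, i ∈ ({0, 1, 2, 3} : Finset (Fin 5)) ↔ i ≠ 4 := by decide

theorem real_ball1 : (volume : Measure (E (Fin 1))).real (Metric.ball 0 1) = 2 := by
  have h := EuclideanSpace.volume_ball (Fin 1) (0 : E (Fin 1)) 1
  have hG : Real.Gamma ((Fintype.card (Fin 1) : ℝ) / 2 + 1) = 1 / 2 * Real.sqrt Real.pi := by
    have : ((Fintype.card (Fin 1) : ℝ) / 2 + 1) = 1 / 2 + 1 := by norm_num
    rw [this, Real.Gamma_add_one (by norm_num), Real.Gamma_one_half_eq]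
  rw [hG] at h
  rw [Measure.real, h]
  have hs : 0 < Real.sqrt Real.pi := Real.sqrt_pos.2 Real.pi_pos
  have h2 : Real.sqrt Real.pi ^ Fintype.card (Fin 1) / (1 / 2 * Real.sqrt Real.pi) = 2 := by
    simp only [Fintype.card_fin, pow_one]
    field_simp
  rw [h2, ENNReal.ofReal_one, one_pow, one_mul, ENNReal.toReal_ofReal (by norm_num)]

theorem line : IntegrableOn (fun v : E (Fin 1) => ‖v‖⁻¹) {v | 1 < ‖v‖ ∧ ‖v‖ < Real.exp 1} ∧
    ∫ v in {v : E (Fin 1) | 1 < ‖v‖ ∧ ‖v‖ < Real.exp 1}, ‖v‖⁻¹ = 2 := by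
  have : Nontrivial (E (Fin 1)) := by infer_instance
  have hm : MeasurableSet {v : E (Fin 1) | 1 < ‖v‖ ∧ ‖v‖ < Real.exp 1} :=
    ((isOpen_lt continuous_const continuous_norm).inter
      (isOpen_lt continuous_norm continuous_const)).measurableSet
  have hfr : Module.finrank ℝ (E (Fin 1)) = 1 := by simp [E]
  have he : (1 : ℝ) < Real.exp 1 := Real.one_lt_exp_iff.2 one_pos
  have e1 : Set.indicator {v : E (Fin 1) | 1 < ‖v‖ ∧ ‖v‖ < Real.exp 1} (fun v => ‖v‖⁻¹)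
      = fun v : E (Fin 1) => (Set.indicator (Ioo 1 (Real.exp 1)) fun r : ℝ => r⁻¹) ‖v‖ := by
    funext y
    by_cases h : 1 < ‖y‖ ∧ ‖y‖ < Real.exp 1
    · rw [Set.indicator_of_mem (show y ∈ {v : E (Fin 1) | 1 < ‖v‖ ∧ ‖v‖ < Real.exp 1} from h),
        Set.indicator_of_mem (show ‖y‖ ∈ Ioo 1 (Real.exp 1) from h)]
    · rw [Set.indicator_of_notMem (show y ∉ {v : E (Fin 1) | 1 < ‖v‖ ∧ ‖v‖ < Real.exp 1} from h),
        Set.indicator_of_notMem (show ‖y‖ ∉ Ioo 1 (Real.exp 1) from h)]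
  have hae : ∀ x ∈ Ioi (0 : ℝ), x ^ (1 - 1) • (Set.indicator (Ioo 1 (Real.exp 1)) fun r : ℝ => r⁻¹) x
      = (Set.indicator (Ioo 1 (Real.exp 1)) fun r : ℝ => r⁻¹) x := by
    intro x _
    simp
  have hcont : ContinuousOn (fun r : ℝ => r⁻¹) (Icc 1 (Real.exp 1)) :=
    continuousOn_inv₀.mono fun r hr => (lt_of_lt_of_le one_pos hr.1).ne'
  have hgi : IntegrableOn (Set.indicator (Ioo 1 (Real.exp 1)) fun r : ℝ => r⁻¹) (Ioi (0 : ℝ)) := by
    have h1 : IntegrableOn (fun r : ℝ => r⁻¹) (Ioo 1 (Real.exp 1)) :=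
      (hcont.integrableOn_Icc).mono_set Ioo_subset_Icc_self
    exact ((integrable_indicator_iff measurableSet_Ioo).2 h1).integrableOn
  constructor
  · rw [← integrable_indicator_iff hm, e1]
    exact (integrable_fun_norm_addHaar (volume : Measure (E (Fin 1)))
      (f := Set.indicator (Ioo 1 (Real.exp 1)) fun r : ℝ => r⁻¹)).2 (by
        rw [hfr]
        exact hgi.congr_fun (fun x hx => (hae x hx).symm) measurableSet_Ioi)
  · rw [← integral_indicator hm, e1]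
    have h2 := integral_fun_norm_addHaar (volume : Measure (E (Fin 1)))
      (Set.indicator (Ioo 1 (Real.exp 1)) fun r : ℝ => r⁻¹)
    rw [h2, hfr, setIntegral_congr_fun measurableSet_Ioi hae,
      setIntegral_indicator measurableSet_Ioo]
    have h3 : Ioi (0 : ℝ) ∩ Ioo 1 (Real.exp 1) = Ioo 1 (Real.exp 1) := by
      ext x
      constructor
      · exact fun h => h.2
      · exact fun h => ⟨lt_trans one_pos h.1, h⟩
    rw [h3, ← integral_Ioc_eq_integral_Ioo, ← intervalIntegral.integral_of_le he.le,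
      integral_inv_of_pos one_pos (Real.exp_pos 1), real_ball1]
    simp

theorem dz_axis (heqv : EqvStatement) {G : E5 → Bil E5} {a b : ℝ} {F : E5 → E5}
    (hS : Setup G {0, 1, 2, 3} a b) (hN : NData G {0, 1, 2, 3} F) (v : E (Fin 1))
    (hv : v ≠ 0) : Dz G F (je eP4 eN4 (0, v)) = ‖v‖⁻¹ := by
  obtain ⟨σ, hσd⟩ : ∃ σ, σ = je eP4 eN4 (0, v) := ⟨_, rfl⟩
  rw [← hσd]
  have hn : ‖σ‖ = ‖v‖ := by
    have h := norm_je eP4 eN4 0 v
    rw [norm_zero, ← hσd] at h
    have h2 : ‖σ‖ ^ 2 = ‖v‖ ^ 2 := by rw [h]; ring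
    exact (sq_eq_sq₀ (norm_nonneg _) (norm_nonneg _)).1 h2
  have hv0 : 0 < ‖v‖ := norm_pos_iff.2 hv
  have hσ0 : σ ≠ 0 := by
    intro h
    rw [h, norm_zero] at hn
    exact hv0.ne hn
  have hσP : pP {0, 1, 2, 3} σ = 0 := by
    rw [hσd, pP_je hp4]
    refine ext5 eP4 eN4 (fun a => ?_) fun a => ?_
    · rw [je_in]
      rfl
    · rw [je_out]
      rfl
  have hσ4 : σ = (σ 4) • (eb 4 : E5) := by
    ext i
    have h := congrArg (fun z : E5 => z i) hσP
    simp only [pP_apply] at h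
    by_cases hi : i = 4
    · subst hi
      simp [eb]
    · rw [if_pos ((hp4 i).2 hi)] at h
      rw [h]
      simp [eb, hi]
  have hc : σ 4 ^ 2 = ‖v‖ ^ 2 := by
    rw [← hn]
    conv_rhs => rw [hσ4]
    rw [norm_smul, mul_pow]
    simp [eb]
  have hc0 : σ 4 ≠ 0 := by
    intro h
    rw [h] at hc
    have : 0 < ‖v‖ ^ 2 := by positivity
    nlinarith
  have hrad : G σ σ σ = 1 := by
    rw [hS.cyl.radial σ hσ0 σ, real_inner_self_eq_norm_sq]
    have : ‖σ‖ ≠ 0 := norm_ne_zero_iff.2 hσ0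
    field_simp
  have hG4 : G σ (eb 4) (eb 4) = (‖v‖⁻¹) ^ 2 := by
    have h1 : G σ σ σ = σ 4 * (σ 4 * G σ (eb 4) (eb 4)) := by
      have h2 : G σ σ σ = G σ (σ 4 • (eb 4 : E5)) (σ 4 • (eb 4 : E5)) := by rw [← hσ4]
      rw [h2]
      simp
    rw [hrad] at h1
    have : G σ (eb 4) (eb 4) = 1 / (σ 4 ^ 2) := by
      field_simp
      linarith
    rw [this, hc, inv_pow, one_div]
  unfold Dz sd
  rw [det_blk heqv hp4 eN4 hS hN hσP hσ0]
  rw [Matrix.det_unique]
  rw [Matrix.of_apply]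
  change Real.sqrt (G σ (eb 4) (eb 4)) = _
  rw [hG4, Real.sqrt_sq (inv_nonneg.2 (norm_nonneg v))]

theorem in4 (heqv : EqvStatement) (hpol : PolStatement) : In4Statement := by
  intro G a b F hS hN hint hdet
  obtain ⟨⟨hg1, hg2⟩, _⟩ := hpol
  obtain ⟨hf1, hf2⟩ := line
  have h := fub hp4 eP4 eN4 (fun z => Dz G F z) (fun y : E (Fin 4) => (Real.sin ‖y‖ / ‖y‖) ^ 3)
    (fun v : E (Fin 1) => ‖v‖⁻¹) hint hg1 hf1 ?_
  · rw [hg2, hf2] at h
    linarith
  · intro u v hv hu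
    have hv0 : v ≠ 0 := by
      rintro rfl
      rw [norm_zero] at hv
      linarith
    have hd0 : ∀ z, 0 ≤ Dz G F z := fun z => Real.sqrt_nonneg _
    by_cases hu0 : u = 0
    · subst hu0
      simp only [norm_zero, div_zero]
      rw [zero_pow (by norm_num), zero_mul]
      exact hd0 _
    · have hnu : ‖je eP4 eN4 (u, 0)‖ = ‖u‖ := by
        have h := norm_je eP4 eN4 u 0
        rw [norm_zero] at h
        have h2 : ‖je eP4 eN4 (u, 0)‖ ^ 2 = ‖u‖ ^ 2 := by rw [h]; ring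
        exact (sq_eq_sq₀ (norm_nonneg _) (norm_nonneg _)).1 h2
      have h0 : je eP4 eN4 (0, 0) = 0 := by
        refine ext5 eP4 eN4 (fun a => ?_) fun a => ?_
        · rw [je_in]
          rfl
        · rw [je_out]
          rfl
      have h1 := hdet (je eP4 eN4 (0, v)) (je eP4 eN4 (u, 0))
        (by rw [pP_je hp4, h0]) (by
          intro h
          have := norm_je eP4 eN4 0 v
          rw [h, norm_zero, norm_zero] at this
          have hvp : 0 < ‖v‖ := norm_pos_iff.2 hv0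
          nlinarith) (by rw [pN_je hp4, h0]) (by rw [hnu]; exact norm_pos_iff.2 hu0)
        (by rw [hnu]; exact hu)
      rw [hnu, ← je_add, dz_axis heqv hS hN v hv0] at h1
      calc (Real.sin ‖u‖ / ‖u‖) ^ 3 * ‖v‖⁻¹ = ‖v‖⁻¹ * (Real.sin ‖u‖ / ‖u‖) ^ 3 := mul_comm _ _
        _ ≤ _ := h1

end Pool.Agent.MVZ.H96
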