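import Pool.Agent.Helper35_MVZ.Eqv
import Pool.Agent.Helper35_MVZ.FLA
import Pool.Agent.Helper35_MVZ.GAU
import Pool.Agent.Helper35_MVZ.FLL
import Pool.Agent.Helper35_MVZ.NEX
import Pool.Agent.Helper35_MVZ.DET
import Pool.Agent.Helper35_MVZ.FLC
import Pool.Agent.Helper35_MVZ.COB
import Pool.Agent.Helper35_MVZ.COA
import Pool.Agent.Helper35_MVZ.FLB
import Pool.Agent.Helper35_MVZ.CHV
import Pool.Agent.Helper35_MVZ.BND
import Pool.Agent.Helper35_MVZ.INV
import Pool.Agent.Helper35_MVZ.IN4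
import Pool.Agent.Helper26_MVS.All

/-!
# MVZ: the volume bound from the absence of short geodesics (MP_33f2b9_gt)
-/

noncomputable section

open scoped ContDiff Topology RealInnerProductSpace
open Set MeasureTheory

namespace Pool.Agent.MVZ.H35

open Pool.Agent.RF Pool.Agent.MVS

theorem eqv_ : EqvStatement := eqv H26.rot_

theorem frm_ : FrmStatement := frm

theorem nex_ : NexStatement := H39.nex H26.rot_ H26.hex_

theorem gau_ : GauStatement := H45.gau H26.rot_ eqv_ H26.mco_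

theorem fla_ : FlaStatement := H45.fla H26.rot_ H26.mco_ H26.jeq_

theorem fll_ : FllStatement := H10.fll

theorem flb_ : FlbStatement := H81.flb H26.rot_ eqv_ gau_

theorem flc_ : FlcStatement := H65.flc fla_ flb_ H26.rot_

theorem bnd_ : BndStatement := H94.bnd fla_ flb_ H26.ctn_ H26.cct_

theorem inv_ : InvStatement := H27.inv H26.rot_ bnd_

theorem noz_ : NozStatement := noz H26.rot_ H26.exb_ H26.unq_

theorem coa_ : CoaStatement := H76.coa H26.rot_ inv_ noz_ gau_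

theorem cob_ : CobStatement := H6.cob H26.unq_ noz_ H26.rot_

theorem coi_ : CoiStatement := coi coa_ cob_

theorem det_ : DetStatement :=
  H3.det H26.rot_ fla_ fll_ flb_ flc_ bnd_ H26.lin_ H26.sdf_ inv_

theorem chv_ : ChvStatement := H82.chv H26.sdf_ coi_

theorem in4_ : In4Statement := H96.in4 eqv_ H26.pol_

/-- A metric on `S^4` (as a cylinder metric) with `K ≤ 1` such that no geodesic of length less than
`π` joins two of the points `± e_4` has volume at least `8π²/3`. -/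
theorem vol_bound (G : E5 → Bil E5) (hG : IsCyl G) (hs : SecLe G)
    (hn : ∀ ex : E5 × E5 → E5, IsExp G ex → ∀ σ, pP {0, 1, 2, 3} σ = 0 → σ ≠ 0 →
      ∀ v, pN {0, 1, 2, 3} v = 0 → v ≠ 0 → G σ v v < Real.pi ^ 2 →
      pP {0, 1, 2, 3} (ex (σ, v)) ≠ 0) :
    8 * Real.pi ^ 2 / 3 ≤ ∫ x in slab (Fin 5), sd (G x) := by
  have hS : Setup G {0, 1, 2, 3} 1 1 :=
    ⟨hG, hs, Or.inl ⟨rfl, one_ne_zero, one_ne_zero⟩, rfl, hn⟩
  obtain ⟨ex, hex⟩ := H26.exb_ G hG
  obtain ⟨Q, hQ⟩ := frm_ G _ 1 1 hS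
  obtain ⟨F, hF⟩ := nex_ G _ 1 1 ex Q hS hex hQ
  obtain ⟨c1, c2⟩ := chv_ G _ 1 1 F hS hF
  have hd := det_ G _ 1 1 F hS hF
  have hd' : ∀ σ y, pP {0, 1, 2, 3} σ = 0 → σ ≠ 0 → pN {0, 1, 2, 3} y = 0 → 0 < ‖y‖ →
      ‖y‖ < Real.pi / 2 → Dz G F σ * (Real.sin ‖y‖ / ‖y‖) ^ 3 ≤ Dz G F (σ + y) := by
    intro σ y g1 g2 g3 g4 g5
    have := hd σ y g1 g2 g3 g4 g5
    have hcard : ({0, 1, 2, 3} : Finset (Fin 5)).card = 4 := by decide
    rwa [jac, hcard, show 4 - 1 = 3 from rfl, show 4 - 4 = 0 from rfl, pow_zero,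
      mul_one] at this
  exact (in4_ G 1 1 F hS hF c1 hd').trans c2

end Pool.Agent.MVZ.H35
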